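import Pool.Agent.W260.Theta.Stms

/-!
Part T (theta graphs in terms of paths and cycles) for the e-positivity of theta graphs
(MP_41216f_co).
-/

set_option autoImplicit false

namespace Pool.Agent.W181.Theta

open Finset Pool.Agent.W260.Theta

section alg
variable {ι R : Type*} [Fintype ι] [DecidableEq ι] [CommRing R] (x : ι → R)

lemma Qp_left (m : ℕ) (i j : ι) :
    Qp x (m + 1) i j = ∑ k, (if i = k then 0 else 1) * x k * Qp x m k j := by
  induction m generalizing j with
  | zero => simp only [Qp]
  | succ m ih =>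
    have h1 : Qp x (m + 1 + 1) i j =
        ∑ k, Qp x (m + 1) i k * x k * (if k = j then 0 else 1) := rfl
    rw [h1]
    simp_rw [ih]
    simp only [Qp]
    simp_rw [Finset.sum_mul, Finset.mul_sum]
    rw [Finset.sum_comm]
    refine Finset.sum_congr rfl fun k _ => Finset.sum_congr rfl fun l _ => ?_
    ring

lemma Qp_symm (m : ℕ) (i j : ι) : Qp x m i j = Qp x m j i := by
  induction m generalizing i j with
  | zero => simp only [Qp, eq_comm]
  | succ m ih =>
    rw [Qp_left]
    have h1 : Qp x (m + 1) j i =
        ∑ k, Qp x m j k * x k * (if k = i then 0 else 1) := rfl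
    rw [h1]
    refine Finset.sum_congr rfl fun k _ => ?_
    rw [ih k j]
    by_cases h : k = i
    · subst h; simp
    · rw [if_neg h, if_neg (fun h' => h h'.symm)]; ring

lemma Qp_sum (m : ℕ) (i : ι) : ∑ k, Qp x m i k * x k = rho x (m + 1) i := by
  induction m generalizing i with
  | zero =>
    simp only [Qp, rho]
    refine Finset.sum_congr rfl fun k _ => ?_
    ring
  | succ m ih =>
    simp_rw [Qp_left, Finset.sum_mul]
    rw [Finset.sum_comm]
    have h1 : rho x (m + 1 + 1) i =
        ∑ k, (if i = k then 0 else 1) * x k * rho x (m + 1) k := rfl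
    rw [h1]
    refine Finset.sum_congr rfl fun k _ => ?_
    rw [← ih k, Finset.mul_sum]
    refine Finset.sum_congr rfl fun l _ => ?_
    ring

lemma sum_ite_sub (f : ι → R) (j : ι) :
    ∑ k, f k * (if k = j then 0 else 1) = (∑ k, f k) - f j := by
  have : ∀ k, f k * (if k = j then (0:R) else 1) = f k - (if k = j then f k else 0) := by
    intro k
    by_cases h : k = j <;> simp [h]
  simp_rw [this]
  rw [Finset.sum_sub_distrib]
  simp

lemma Qp_succ_i (m : ℕ) (i j : ι) :
    Qp x (m + 1) i j = rho x (m + 1) i - x j * Qp x m i j := by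
  have h1 : Qp x (m + 1) i j =
      ∑ k, Qp x m i k * x k * (if k = j then 0 else 1) := rfl
  rw [h1, sum_ite_sub (fun k => Qp x m i k * x k) j, Qp_sum]
  ring

lemma rho_succ (l : ℕ) (i : ι) : rho x (l + 1) i = PP x (l + 1) - x i * rho x l i := by
  have h1 : rho x (l + 1) i = ∑ k, (if i = k then 0 else 1) * x k * rho x l k := rfl
  have h2 : PP x (l + 1) = ∑ k, x k * rho x l k := rfl
  rw [h1, h2, ← sum_ite_sub (fun k => x k * rho x l k) i]
  refine Finset.sum_congr rfl fun k _ => ?_
  by_cases h : k = i
  · subst h; simp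
  · rw [if_neg h, if_neg (fun h' => h h'.symm)]; ring

lemma Qp_comp (p s : ℕ) (i j : ι) :
    ∑ k, Qp x p i k * x k * Qp x s k j = Qp x (p + s + 1) i j := by
  induction s generalizing j with
  | zero => rfl
  | succ s ih =>
    have h1 : Qp x (p + (s + 1) + 1) i j =
        ∑ k, Qp x (p + s + 1) i k * x k * (if k = j then 0 else 1) := rfl
    rw [h1]
    simp_rw [← ih]
    simp only [Qp]
    simp_rw [Finset.sum_mul, Finset.mul_sum]
    rw [Finset.sum_comm]
    refine Finset.sum_congr rfl fun k _ => Finset.sum_congr rfl fun l _ => ?_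
    ring

lemma rho_comp (l m : ℕ) : ∑ i, x i * rho x l i * rho x m i = PP x (l + m + 1) := by
  induction l generalizing m with
  | zero =>
    have h2 : PP x (0 + m + 1) = ∑ k, x k * rho x m k := by
      rw [Nat.zero_add]; rfl
    rw [h2]
    simp [rho]
  | succ l ih =>
    have e : l + 1 + m + 1 = l + (m + 1) + 1 := by ring
    rw [e, ← ih (m + 1)]
    simp only [rho]
    simp_rw [Finset.mul_sum, Finset.sum_mul]
    rw [Finset.sum_comm]
    refine Finset.sum_congr rfl fun k _ => Finset.sum_congr rfl fun i _ => ?_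
    by_cases h : k = i
    · subst h; simp
    · rw [if_neg h, if_neg (fun h' => h h'.symm)]; ring

/-- tadpole with cycle of `m + 1` vertices and a tail of `l` vertices -/
def TT (m l : ℕ) : R := ∑ i, x i * rho x l i * Qp x m i i

lemma TT_zero_right (m : ℕ) : TT x m 0 = CC x m := by
  simp [TT, CC, rho]

lemma TT_zero_left (l : ℕ) : TT x 0 l = 0 := by
  simp [TT, Qp]

lemma TT_step (m l : ℕ) :
    TT x m (l + 1) = TT x (m + 1) l - PP x (m + l + 2) + PP x (l + 1) * CC x m := by
  have h1 : PP x (m + l + 2) = ∑ i, x i * rho x l i * rho x (m + 1) i := by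
    rw [rho_comp]; congr 1; ring
  rw [h1]
  unfold TT CC
  rw [Finset.mul_sum, ← Finset.sum_sub_distrib, ← Finset.sum_add_distrib]
  refine Finset.sum_congr rfl fun i _ => ?_
  rw [Qp_succ_i, rho_succ x l]
  ring

/-- the summand of the statement -/
def SS (n j : ℕ) : R := (∑ t ∈ range (j + 1), CC x (n - 1 - t) * PP x t) - (j : R) * PP x n

lemma SS_eq (n j : ℕ) (h : j + 1 ≤ n) : SS x n j = TT x (n - 1 - j) j := by
  induction j with
  | zero =>
    simp [SS, TT_zero_right, PP]
  | succ j ih =>
    have ih' := ih (by omega)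
    have e1 : n - 1 - j = (n - 1 - (j + 1)) + 1 := by omega
    have e2 : n = (n - 1 - (j + 1)) + j + 2 := by omega
    have e3 : SS x n (j + 1) = SS x n j + CC x (n - 1 - (j + 1)) * PP x (j + 1) - PP x n := by
      unfold SS
      rw [Finset.sum_range_succ _ (j + 1)]
      push_cast
      ring
    rw [e3, ih', TT_step, ← e1, ← e2]
    ring

lemma first_claim (n : ℕ) :
    ∑ t ∈ range (n + 1), CC x (n - t) * PP x t = (n : R) * PP x (n + 1) := by
  have h := SS_eq x (n + 1) n le_rfl
  have e : n + 1 - 1 - n = 0 := by omega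
  rw [e, TT_zero_left] at h
  unfold SS at h
  rw [Nat.add_sub_cancel] at h
  exact sub_eq_zero.mp h

lemma theta_slide (a b c : ℕ) :
    theta x a (b + 1) c = theta x (a + 1) b c - TT x (b + c + 1) (a + 1)
      + TT x (a + c + 1) (b + 1) := by
  have h1 : TT x (b + c + 1) (a + 1) =
      ∑ i, ∑ j, x i * x j * rho x (a + 1) i * Qp x b i j * Qp x c i j := by
    unfold TT
    refine Finset.sum_congr rfl fun i _ => ?_
    rw [← Qp_comp, Finset.mul_sum]
    refine Finset.sum_congr rfl fun j _ => ?_
    rw [Qp_symm x c j i]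
    ring
  have h2 : TT x (a + c + 1) (b + 1) =
      ∑ i, ∑ j, x i * x j * rho x (b + 1) i * Qp x a i j * Qp x c i j := by
    unfold TT
    refine Finset.sum_congr rfl fun i _ => ?_
    rw [← Qp_comp, Finset.mul_sum]
    refine Finset.sum_congr rfl fun j _ => ?_
    rw [Qp_symm x c j i]
    ring
  rw [h1, h2]
  unfold theta
  rw [← Finset.sum_sub_distrib, ← Finset.sum_add_distrib]
  refine Finset.sum_congr rfl fun i _ => ?_
  rw [← Finset.sum_sub_distrib, ← Finset.sum_add_distrib]
  refine Finset.sum_congr rfl fun j _ => ?_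
  rw [Qp_succ_i x b, Qp_succ_i x a]
  ring

lemma theta_comm (a b c : ℕ) : theta x a b c = theta x a c b := by
  unfold theta
  refine Finset.sum_congr rfl fun i _ => Finset.sum_congr rfl fun j _ => ?_
  ring

lemma theta_base (a : ℕ) : theta x a 0 0 = CC x (a + 1) := by
  unfold theta CC
  refine Finset.sum_congr rfl fun i _ => ?_
  have h : Qp x (a + 1) i i = ∑ j, Qp x a i j * x j * Qp x 0 j i := by
    rw [Qp_comp]
  rw [h, Finset.mul_sum]
  refine Finset.sum_congr rfl fun j _ => ?_
  simp only [Qp]
  by_cases hij : i = j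
  · subst hij; simp
  · rw [if_neg hij, if_neg (fun h' => hij h'.symm)]; ring

/-- partial sums -/
def SG (n m : ℕ) : R := ∑ j ∈ range m, SS x n j

lemma SG_succ (n m : ℕ) : SG x n (m + 1) = SG x n m + SS x n m := by
  unfold SG; rw [Finset.sum_range_succ]

lemma theta_one (a c n : ℕ) (h : n = a + c + 2) :
    theta x a 0 c = SG x n (a + 1) + SG x n 1 + SG x n (c + 1) - SG x n n - CC x (n - 1) := by
  induction c generalizing a with
  | zero =>
    rw [theta_base]
    have hn : SG x n n = SG x n (a + 1) + SS x n (a + 1) := by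
      rw [← SG_succ]; congr 1
    have h0 : SS x n (a + 1) = 0 := by
      rw [SS_eq x n (a + 1) (by omega)]
      have : n - 1 - (a + 1) = 0 := by omega
      rw [this, TT_zero_left]
    have h1 : SG x n 1 = CC x (n - 1) := by
      unfold SG
      rw [Finset.sum_range_one, SS_eq x n 0 (by omega), TT_zero_right]
      rfl
    rw [hn, h0, zero_add, h1]
    have : a + 1 = n - 1 := by omega
    rw [this]
    ring
  | succ c ih =>
    have ih' := ih (a + 1) (by omega)
    rw [theta_comm x a 0 (c + 1), theta_slide x a c 0, theta_comm x (a + 1) c 0, ih',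
      SG_succ x n (a + 1), SG_succ x n (c + 1), SS_eq x n (a + 1) (by omega),
      SS_eq x n (c + 1) (by omega)]
    have e1 : n - 1 - (a + 1) = c + 0 + 1 := by omega
    have e2 : n - 1 - (c + 1) = a + 0 + 1 := by omega
    rw [e1, e2]
    ring

lemma theta_gen (a b c n : ℕ) (h : n = a + b + c + 2) :
    theta x a b c =
      SG x n (a + 1) + SG x n (b + 1) + SG x n (c + 1) - SG x n n - CC x (n - 1) := by
  induction b generalizing a with
  | zero => exact theta_one x a c n (by omega)
  | succ b ih =>
    have ih' := ih (a + 1) (by omega)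
    rw [theta_slide x a b c, ih',
      SG_succ x n (a + 1), SG_succ x n (b + 1), SS_eq x n (a + 1) (by omega),
      SS_eq x n (b + 1) (by omega)]
    have e1 : n - 1 - (a + 1) = b + c + 1 := by omega
    have e2 : n - 1 - (b + 1) = a + c + 1 := by omega
    rw [e1, e2]
    ring

end alg

theorem part_T : S_T := by
  intro ι R _ _ _ x
  refine ⟨first_claim x, ?_⟩
  intro a b c n ha hb hc hn
  have h := theta_gen x (a - 1) (b - 1) (c - 1) n (by omega)
  rw [Nat.sub_add_cancel ha, Nat.sub_add_cancel hb, Nat.sub_add_cancel hc] at h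
  exact h

end Pool.Agent.W181.Theta
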